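import Mathlib
import Pool.Agent.H950R2.Sil.Main

set_option autoImplicit false

namespace Pool.Agent.Results.MP_55ef7c_ag.QuarticDegreeGrowth

open Pool.Agent.H950R2.Sil MvPolynomial

lemma deg_ne_zero {K : Type*} [Field K] {f : RatMap K 3} {r : Fin 3 → F3 K} (hf : HasCoords f r)
    (hr : AlgebraicIndependent K r) : f.deg ≠ 0 := by
  intro h0
  obtain ⟨μ, hμ, hfr⟩ := hf
  have hc : ∀ i, ∃ c : K, f.form i = C c := by
    intro i
    have h1 := f.homogeneous i
    rw [h0] at h1
    exact ⟨_, totalDegree_eq_zero_iff_eq_C.mp (Nat.le_zero.mp h1.totalDegree_le)⟩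
  obtain ⟨c, hc0⟩ := hc 0
  obtain ⟨d, hc1⟩ := hc 1
  have e0 : ι (dh (f.form 0)) = algebraMap K (F3 K) c := by
    rw [hc0, dh, aeval_C, MvPolynomial.algebraMap_eq, algebraMap_C]
  have e1 : ι (dh (f.form 1)) = algebraMap K (F3 K) d := by
    rw [hc1, dh, aeval_C, MvPolynomial.algebraMap_eq, algebraMap_C]
  have g0 : μ = algebraMap K (F3 K) c := by
    rw [← e0, hfr 0, co_zero, mul_one]
  have g1 : algebraMap K (F3 K) d = μ * r 0 := by
    rw [← e1, hfr 1]; rfl
  have hc' : c ≠ 0 := by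
    rintro rfl
    rw [map_zero] at g0
    exact hμ g0
  have h2 : aeval r (C c * X 0 - C d : MvPolynomial (Fin 3) K) = 0 := by
    rw [map_sub, map_mul, aeval_C, aeval_C, aeval_X, g1, g0, sub_self]
  have h3 := (algebraicIndependent_iff.mp hr) _ h2
  have h4 := congrArg (eval (fun _ => (0 : K))) h3
  have h5 := congrArg (eval (fun _ => (1 : K))) h3
  simp at h4 h5
  rw [h4] at h5
  simp at h5
  exact hc' h5

/-- **A birational map of projective 3-space whose degrees grow like `n ^ 4`.** -/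
theorem result (K : Type*) [Field K] :
    ∃ (f : RatMap K 3) (g : ℕ → RatMap K 3),
      f.Dominant ∧ f.Birational ∧
      (∀ n, f.IsIterate n (g n)) ∧ (∀ n g', f.IsIterate n g' → g'.deg = (g n).deg) ∧
      Filter.Tendsto (fun n : ℕ => ((g n).deg : ℝ) ^ (1 / (n : ℝ))) Filter.atTop (nhds 1) ∧
      SameGrowth (fun n => (n : ℝ) ^ 4) (fun n => ((g n).deg : ℝ)) ∧
      ∀ l : ℕ, l ≤ 3 →
        ¬ SameGrowth (fun n => (n : ℝ) ^ l * 1 ^ n) (fun n => ((g n).deg : ℝ)) := by
  obtain ⟨f, hf⟩ := exists_hasCoords (fun j => ph K (x0 K 3 j))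
  have hind : AlgebraicIndependent K (fun j => ph K (x0 K 3 j)) :=
    (xx_indep (K := K)).map' (f := ph K) (RingHom.injective (ph K : F3 K →+* F3 K))
  choose g hg1 hg2 using fun n => exists_iterate hf (ψ := it K) rfl (fun _ => rfl) n
  have hgr := deg_growth hg2
  exact ⟨f, g, dominant_of_coords hf hind (deg_ne_zero hf hind), birational_of_coords hf, hg1,
    fun n g' h => iterate_deg_unique h (hg1 n), tendsto_root hgr, hgr, fun l hl => not_same hgr hl⟩

end Pool.Agent.Results.MP_55ef7c_ag.QuarticDegreeGrowth
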